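import Pool.Agent.W619.Y.Stm2

set_option autoImplicit false

universe u v

open FF

namespace Pool.Agent.W419.PG

section
variable {k K : Type*} [Field k] [Field K] [Algebra k K]

lemma red_sum (P : Place k K) {ι : Type*} (s : Finset ι) (g : ι → K) (h : ∀ i ∈ s, P.Reg (g i)) :
    P.Reg (∑ i ∈ s, g i) ∧ P.red (∑ i ∈ s, g i) = ∑ i ∈ s, P.red (g i) := by
  classical
  induction s using Finset.induction_on with
  | empty => simp [P.reg_zero, P.red_zero]
  | insert a s ha ih =>
    have h1 := ih (fun i hi => h i (Finset.mem_insert_of_mem hi))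
    have h2 := h a (Finset.mem_insert_self a s)
    rw [Finset.sum_insert ha, Finset.sum_insert ha]
    exact ⟨P.reg_add h2 h1.1, by rw [P.red_add h2 h1.1, h1.2]⟩

lemma red_prod (P : Place k K) {ι : Type*} (s : Finset ι) (g : ι → K) (h : ∀ i ∈ s, P.Reg (g i)) :
    P.Reg (∏ i ∈ s, g i) ∧ P.red (∏ i ∈ s, g i) = ∏ i ∈ s, P.red (g i) := by
  classical
  induction s using Finset.induction_on with
  | empty => simp [P.reg_one, P.red_one]
  | insert a s ha ih =>
    have h1 := ih (fun i hi => h i (Finset.mem_insert_of_mem hi))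
    have h2 := h a (Finset.mem_insert_self a s)
    rw [Finset.prod_insert ha, Finset.prod_insert ha]
    exact ⟨P.reg_mul h2 h1.1, by rw [P.red_mul h2 h1.1, h1.2]⟩

lemma reg_pow (P : Place k K) {f : K} (hf : P.Reg f) (n : ℕ) : P.Reg (f ^ n) := by
  induction n with
  | zero => rw [pow_zero]; exact P.reg_one
  | succ n ih => rw [pow_succ]; exact P.reg_mul ih hf

lemma red_aeval (P : Place k K) {ι : Type} (y : ι → K) (hy : ∀ i, P.Reg (y i))
    (p : MvPolynomial ι k) :
    P.Reg (MvPolynomial.aeval y p) ∧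
      P.red (MvPolynomial.aeval y p) = MvPolynomial.aeval (fun i => P.red (y i)) p := by
  induction p using MvPolynomial.induction_on with
  | C a =>
    rw [MvPolynomial.algHom_C, MvPolynomial.algHom_C]
    exact ⟨P.reg_const a, (P.algebraMap_RF a).symm⟩
  | add p q hp hq =>
    rw [map_add, map_add, P.red_add hp.1 hq.1, hp.2, hq.2]
    exact ⟨P.reg_add hp.1 hq.1, rfl⟩
  | mul_X p i hp =>
    rw [map_mul, map_mul, MvPolynomial.aeval_X, MvPolynomial.aeval_X, P.red_mul hp.1 (hy i), hp.2]
    exact ⟨P.reg_mul hp.1 (hy i), rfl⟩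

lemma red_mono (P : Place k K) {ι : Type*} (y : ι → K) (hy : ∀ i, P.Reg (y i)) (m : ι →₀ ℕ) :
    P.Reg (m.prod fun i j => y i ^ j) ∧
      P.red (m.prod fun i j => y i ^ j) = m.prod fun i j => P.red (y i) ^ j := by
  have h := red_prod P m.support (fun i => y i ^ m i) (fun i _ => reg_pow P (hy i) _)
  refine ⟨h.1, h.2.trans ?_⟩
  refine Finset.prod_congr rfl fun i _ => ?_
  exact P.red_pow (hy i) _

end

/-- regular elements with algebraically independent residues are algebraically independent -/
lemma lift_indep {k : Type v} {K L : Type u} [Field k] [Field K] [Field L]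
    [Algebra k K] [Algebra k L] [Algebra K L] [IsScalarTower k K L]
    (v : Place k K) (w : Place k L) (e : ℕ) (hov : Over w v e)
    [Algebra v.RF w.RF] (hmap : ∀ a : v.RF, algebraMap v.RF w.RF a = hov.resMap a)
    {ι : Type u} (z : ι → L) (hz : ∀ i, w.Reg (z i))
    (hi : AlgebraicIndependent v.RF (fun i => w.red (z i))) : AlgebraicIndependent K z := by
  rw [algebraicIndependent_iff]
  intro p hp
  by_contra hp0
  have hne : p.support.Nonempty := MvPolynomial.support_nonempty.2 hp0
  obtain ⟨j, hj, hmin⟩ := Finset.exists_min_image p.support (fun i => v.ord (p.coeff i)) hne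
  have hj0 : p.coeff j ≠ 0 := MvPolynomial.mem_support_iff.1 hj
  have hq : ∀ i, v.Reg (p.coeff i / p.coeff j) := by
    intro i
    by_cases hi : p.coeff i = 0
    · rw [hi, zero_div]; exact v.reg_zero
    · right
      rw [v.ord_div hi hj0]
      have := hmin i (MvPolynomial.mem_support_iff.2 hi)
      linarith
  let Q : MvPolynomial ι v.RF :=
    ∑ i ∈ p.support, MvPolynomial.monomial i (v.red (p.coeff i / p.coeff j))
  have hQ1 : Q.coeff j = 1 := by
    classical
    simp only [Q, MvPolynomial.coeff_sum, MvPolynomial.coeff_monomial]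
    rw [Finset.sum_ite_eq' p.support j, if_pos hj, div_self hj0, v.red_one]
  have h2 : MvPolynomial.aeval (fun i => w.red (z i)) Q = ∑ i ∈ p.support,
      w.red (algebraMap K L (p.coeff i / p.coeff j) * i.prod fun a b => z a ^ b) := by
    simp only [Q, map_sum, MvPolynomial.aeval_monomial]
    refine Finset.sum_congr rfl fun i _ => ?_
    rw [hmap, hov.resMap_red (hq i), w.red_mul (hov.reg.2 (hq i)) (red_mono w z hz i).1,
      (red_mono w z hz i).2]
  have h3 := red_sum w p.support
    (fun i => algebraMap K L (p.coeff i / p.coeff j) * i.prod fun a b => z a ^ b)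
    (fun i _ => w.reg_mul (hov.reg.2 (hq i)) (red_mono w z hz i).1)
  have h4 : ∑ i ∈ p.support,
      algebraMap K L (p.coeff i / p.coeff j) * (i.prod fun a b => z a ^ b) = 0 := by
    have h6 : MvPolynomial.aeval z p
        = ∑ i ∈ p.support, algebraMap K L (p.coeff i) * (i.prod fun a b => z a ^ b) := by
      conv_lhs => rw [← p.support_sum_monomial_coeff]
      rw [map_sum]
      exact Finset.sum_congr rfl fun i _ => MvPolynomial.aeval_monomial _ _ _
    have h5 : ∑ i ∈ p.support,
        algebraMap K L (p.coeff i / p.coeff j) * (i.prod fun a b => z a ^ b)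
        = (algebraMap K L (p.coeff j))⁻¹ * MvPolynomial.aeval z p := by
      rw [h6, Finset.mul_sum]
      refine Finset.sum_congr rfl fun i _ => ?_
      rw [map_div₀]
      ring
    rw [h5, hp, mul_zero]
  have h7 : MvPolynomial.aeval (fun i => w.red (z i)) Q = 0 := by
    rw [h2, ← h3.2, h4, w.red_zero]
  have h8 : Q = 0 := (algebraicIndependent_iff.1 hi) Q h7
  rw [h8] at hQ1
  simp at hQ1

theorem main : Pool.Agent.W619.Y.S_DIVR.{u, v} := by
  intro k K L _ _ _ _ _ _ _ _ d n v w e hK hL hov hw
  obtain ⟨y, hy⟩ := hw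
  have hyr : ∀ i, w.Reg (y i) := by
    intro i
    have h := hy (MvPolynomial.X i) (MvPolynomial.X_ne_zero i)
    rw [MvPolynomial.aeval_X] at h
    exact Or.inr h.2.ge
  have hc : AlgebraicIndependent k (fun i => w.red (y i)) := by
    rw [algebraicIndependent_iff]
    intro p hp
    by_contra hp0
    have h := hy p hp0
    have h2 := red_aeval w y hyr p
    exact w.red_ne_zero h.1 h.2 (h2.2.trans hp)
  letI : Algebra v.RF w.RF := hov.resMap.toRingHom.toAlgebra
  have hmap : ∀ a : v.RF, algebraMap v.RF w.RF a = hov.resMap a := fun a => rfl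
  haveI : IsScalarTower k v.RF w.RF := IsScalarTower.of_algebraMap_eq fun c => by
    rw [hmap]
    exact (hov.resMap.commutes c).symm
  have h1 : ((n - 1 : ℕ) : Cardinal) ≤ Algebra.trdeg k w.RF := by
    have := hc.lift_cardinalMk_le_trdeg
    simpa using this
  have h2 : Algebra.trdeg k v.RF + Algebra.trdeg v.RF w.RF = Algebra.trdeg k w.RF :=
    trdeg_add_eq k v.RF (A := w.RF)
  have hKL : Algebra.trdeg k K + Algebra.trdeg K L = Algebra.trdeg k L :=
    trdeg_add_eq k K (A := L)
  -- residues
  have h3 : Algebra.trdeg v.RF w.RF ≤ Algebra.trdeg K L := by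
    obtain ⟨s, hs⟩ := exists_isTranscendenceBasis v.RF w.RF
    choose z hz1 hz2 using fun i : s => w.red_surjective (i : w.RF)
    have hi : AlgebraicIndependent v.RF (fun i : s => w.red (z i)) := by
      have h4 : (fun i : s => w.red (z i)) = fun i : s => (i : w.RF) := funext hz2
      rw [h4]
      exact hs.1
    have h5 := lift_indep v w e hov hmap z hz1 hi
    have h6 := h5.cardinalMk_le_trdeg
    rw [hs.cardinalMk_eq_trdeg] at h6
    exact h6
  have h4 : ((d - 1 : ℕ) : Cardinal) ≤ Algebra.trdeg k v.RF := by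
    by_contra hcon
    rw [not_le] at hcon
    obtain ⟨m, hm⟩ := Cardinal.lt_aleph0.1 (hcon.trans (Cardinal.nat_lt_aleph0 _))
    rw [hm] at hcon h2
    have hm1 : m < d - 1 := by exact_mod_cast hcon
    have ht : Algebra.trdeg K L < Cardinal.aleph0 := by
      have : Algebra.trdeg K L ≤ Algebra.trdeg k L := by
        rw [← hKL]; exact self_le_add_left _ _
      refine this.trans_lt ?_
      rw [hL]
      exact Cardinal.nat_lt_aleph0 _
    obtain ⟨t, ht'⟩ := Cardinal.lt_aleph0.1 ht
    rw [hK, hL, ht'] at hKL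
    have hKL' : d + t = n := by exact_mod_cast hKL
    have h5 : ((n - 1 : ℕ) : Cardinal) ≤ (m : Cardinal) + t := by
      refine h1.trans ?_
      rw [← h2]
      exact add_le_add le_rfl (h3.trans ht'.le)
    have h6 : n - 1 ≤ m + t := by exact_mod_cast h5
    omega
  obtain ⟨s, hs⟩ := exists_isTranscendenceBasis k v.RF
  have h5 : ((d - 1 : ℕ) : Cardinal) ≤ Cardinal.mk s := by
    rw [hs.cardinalMk_eq_trdeg]
    exact h4
  have h6 : Nonempty (Fin (d - 1) ↪ s) := by
    rw [← Cardinal.lift_mk_le']
    simpa using h5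
  obtain ⟨g⟩ := h6
  have hd : AlgebraicIndependent k (fun i : Fin (d - 1) => ((g i : s) : v.RF)) :=
    hs.1.comp g g.injective
  choose z hz1 hz2 using fun i : Fin (d - 1) => v.red_surjective ((g i : s) : v.RF)
  refine ⟨z, fun p hp => ?_⟩
  have h5 := red_aeval v z hz1 p
  have h6 : v.red (MvPolynomial.aeval z p) ≠ 0 := by
    rw [h5.2]
    intro h7
    apply hp
    refine (algebraicIndependent_iff.1 hd) p ?_
    rw [← h7]
    congr 2
    funext i
    exact (hz2 i).symm
  have h8 : MvPolynomial.aeval z p ≠ 0 := by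
    intro h9
    rw [h9, v.red_zero] at h6
    exact h6 rfl
  refine ⟨h8, ?_⟩
  have h9 : ¬ (0 < v.ord (MvPolynomial.aeval z p)) := fun h =>
    h6 ((v.red_eq_zero_iff h5.1).2 (Or.inr h))
  have h10 := (v.reg_iff h8).1 h5.1
  omega

end Pool.Agent.W419.PG
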